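import Pool.Agent.Y985.ME.Stm
import Pool.Agent.H984R4.NP.Two

/-!
Expected number of the blocks near the path and near the boundary (S_FM).
-/

set_option autoImplicit false

namespace Pool.Agent.Y317.ME

open H974 Finset H342P H984P H984N Pool.Agent.Y985.ME

/-! ### One-dimensional sums -/

lemma sum_quarter (J : ℕ) : ∑ j ∈ range J, ((j : ℝ) + 1) ^ (-(1/4) : ℝ) ≤
    4 / 3 * (J : ℝ) ^ (3/4 : ℝ) := by
  induction J with
  | zero => simp
  | succ J ih =>
    rw [Finset.sum_range_succ]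
    have hJ : (0 : ℝ) < (J : ℝ) + 1 := by positivity
    have h1 : (1 + -(1 / ((J : ℝ) + 1))) ^ (3/4 : ℝ) ≤ 1 + 3/4 * -(1 / ((J : ℝ) + 1)) := by
      apply rpow_one_add_le_one_add_mul_self
      · have : 1 / ((J : ℝ) + 1) ≤ 1 := by
          rw [div_le_one hJ]
          linarith [(Nat.cast_nonneg J : (0 : ℝ) ≤ J)]
        linarith
      · norm_num
      · norm_num
    have h2 : (J : ℝ) = ((J : ℝ) + 1) * (1 + -(1 / ((J : ℝ) + 1))) := by
      field_simp
      ring
    have h0 : 0 ≤ 1 + -(1 / ((J : ℝ) + 1)) := by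
      have : 1 / ((J : ℝ) + 1) ≤ 1 := by
        rw [div_le_one hJ]
        linarith [(Nat.cast_nonneg J : (0 : ℝ) ≤ J)]
      linarith
    have h3 : (J : ℝ) ^ (3/4 : ℝ) ≤ ((J : ℝ) + 1) ^ (3/4 : ℝ) -
        3/4 * ((J : ℝ) + 1) ^ (-(1/4) : ℝ) := by
      have e1 : (J : ℝ) ^ (3/4 : ℝ) = ((J : ℝ) + 1) ^ (3/4 : ℝ) *
          (1 + -(1 / ((J : ℝ) + 1))) ^ (3/4 : ℝ) := by
        conv_lhs => rw [h2]
        exact Real.mul_rpow hJ.le h0
      rw [e1]
      have e2 : ((J : ℝ) + 1) ^ (-(1/4) : ℝ) = ((J : ℝ) + 1) ^ (3/4 : ℝ) * (1 / ((J : ℝ) + 1)) := by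
        rw [show (-(1/4) : ℝ) = 3/4 - 1 by norm_num, Real.rpow_sub hJ, Real.rpow_one]
        ring
      rw [e2]
      have h4 := mul_le_mul_of_nonneg_left h1 (Real.rpow_nonneg hJ.le (3/4 : ℝ))
      linarith
    push_cast
    linarith

/-- the bound of the probability in terms of the distance to the boundary -/
noncomputable def fb (W d : ℤ) : ℝ := ((W : ℝ) / ((max d 0 : ℤ) + W)) ^ (1/4 : ℝ)

lemma fb_nonneg {W d : ℤ} (hW : 1 ≤ W) : 0 ≤ fb W d := by
  unfold fb
  have h1 : (0 : ℝ) ≤ (max d 0 : ℤ) := by exact_mod_cast le_max_right d 0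
  have h2 : (0 : ℝ) < W := by exact_mod_cast (by omega : 0 < W)
  positivity

lemma fb_le {W d : ℤ} (hW : 1 ≤ W) {j : ℕ} (hj : (j : ℤ) * W ≤ d + W) :
    fb W d ≤ if j = 0 then 1 else (j : ℝ) ^ (-(1/4) : ℝ) := by
  have hW0 : (0 : ℝ) < W := by exact_mod_cast (by omega : 0 < W)
  have h1 : (0 : ℝ) ≤ (max d 0 : ℤ) := by exact_mod_cast le_max_right d 0
  unfold fb
  split_ifs with h
  · apply Real.rpow_le_one (by positivity) _ (by norm_num)
    rw [div_le_one (by positivity)]
    linarith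
  · have hj0 : (0 : ℝ) < j := by exact_mod_cast Nat.pos_of_ne_zero h
    rw [Real.rpow_neg hj0.le, ← Real.inv_rpow hj0.le]
    apply Real.rpow_le_rpow (by positivity) _ (by norm_num)
    rw [inv_eq_one_div, div_le_div_iff₀ (by positivity) hj0, one_mul]
    have h2 : ((j : ℤ) : ℝ) * W ≤ d + W := by exact_mod_cast hj
    have h3 : (d : ℝ) ≤ (max d 0 : ℤ) := by exact_mod_cast le_max_left d 0
    rw [Int.cast_natCast] at h2
    linarith

/-- sum over a family of lines -/
lemma one_dim (I : Finset ℤ) (d : ℤ → ℤ) (j : ℤ → ℕ) {W : ℤ} {ρ : ℝ} (hW : 1 ≤ W)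
    (hρ : (W : ℝ) ≤ ρ) (hinj : Set.InjOn j I) (hd : ∀ x ∈ I, (j x : ℤ) * W ≤ d x + W) :
    ∑ x ∈ I, (if (d x : ℝ) ≤ ρ then fb W (d x) else 0) ≤ 4 * (ρ / W) ^ (3/4 : ℝ) := by
  classical
  have hW0 : (0 : ℝ) < W := by exact_mod_cast (by omega : 0 < W)
  have hx1 : 1 ≤ ρ / W := by
    rw [le_div_iff₀ hW0]
    linarith
  set g : ℕ → ℝ := fun k => if k = 0 then 1 else (k : ℝ) ^ (-(1/4) : ℝ) with hg
  have hg0 : ∀ k, 0 ≤ g k := by
    intro k
    simp only [hg]
    split_ifs
    · norm_num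
    · positivity
  set J : ℕ := ⌊2 * (ρ / W)⌋₊ with hJ
  rw [← Finset.sum_filter]
  have h1 : ∑ x ∈ I.filter (fun x => (d x : ℝ) ≤ ρ), fb W (d x) ≤
      ∑ x ∈ I.filter (fun x => (d x : ℝ) ≤ ρ), g (j x) := by
    apply Finset.sum_le_sum
    intro x hx
    exact fb_le hW (hd x (Finset.mem_filter.1 hx).1)
  have h2 : ∑ x ∈ I.filter (fun x => (d x : ℝ) ≤ ρ), g (j x) =
      ∑ k ∈ (I.filter (fun x => (d x : ℝ) ≤ ρ)).image j, g k := by
    rw [Finset.sum_image]
    intro x hx y hy hxy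
    exact hinj (Finset.mem_filter.1 hx).1 (Finset.mem_filter.1 hy).1 hxy
  have h3 : (I.filter (fun x => (d x : ℝ) ≤ ρ)).image j ⊆ range (J + 1) := by
    intro k hk
    obtain ⟨x, hx, rfl⟩ := Finset.mem_image.1 hk
    rw [Finset.mem_filter] at hx
    rw [Finset.mem_range, Nat.lt_succ_iff, hJ, Nat.le_floor_iff (by positivity)]
    have h4 : ((j x : ℤ) : ℝ) * W ≤ d x + W := by exact_mod_cast hd x hx.1
    rw [Int.cast_natCast] at h4
    rw [← mul_div_assoc, le_div_iff₀ hW0]
    linarith [hx.2]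
  have h4 : ∑ k ∈ (I.filter (fun x => (d x : ℝ) ≤ ρ)).image j, g k ≤ ∑ k ∈ range (J + 1), g k :=
    Finset.sum_le_sum_of_subset_of_nonneg h3 fun k _ _ => hg0 k
  have h5 : ∑ k ∈ range (J + 1), g k = ∑ k ∈ range J, ((k : ℝ) + 1) ^ (-(1/4) : ℝ) + 1 := by
    rw [Finset.sum_range_succ']
    congr 1
    apply Finset.sum_congr rfl
    intro k _
    simp only [hg]
    rw [if_neg (Nat.succ_ne_zero k)]
    push_cast
    rfl
  have h6 := sum_quarter J
  have h7 : (J : ℝ) ^ (3/4 : ℝ) ≤ 2 * (ρ / W) ^ (3/4 : ℝ) := by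
    calc (J : ℝ) ^ (3/4 : ℝ) ≤ (2 * (ρ / W)) ^ (3/4 : ℝ) :=
          Real.rpow_le_rpow (Nat.cast_nonneg _) (Nat.floor_le (by positivity)) (by norm_num)
      _ = 2 ^ (3/4 : ℝ) * (ρ / W) ^ (3/4 : ℝ) := Real.mul_rpow (by norm_num) (by positivity)
      _ ≤ 2 * (ρ / W) ^ (3/4 : ℝ) := by
        apply mul_le_mul_of_nonneg_right _ (by positivity)
        calc (2 : ℝ) ^ (3/4 : ℝ) ≤ 2 ^ (1 : ℝ) :=
              Real.rpow_le_rpow_of_exponent_le (by norm_num) (by norm_num)
          _ = 2 := Real.rpow_one 2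
  have h8 : 1 ≤ (ρ / W) ^ (3/4 : ℝ) := Real.one_le_rpow hx1 (by norm_num)
  linarith

/-! ### One block -/

lemma tch_pr {C : ℝ} (hC : 0 < C) (hA : AnnUp C) {D : Dm} (hD : D.Ok) {W : ℤ} (hW : 1 ≤ W)
    (q : Vtx) : P D.edges (Tch D W q) ≤ (6 * C + 17) * fb W (D.bd (q.1 * W, q.2 * W)) := by
  have hW0 : (0 : ℝ) < W := by exact_mod_cast (by omega : 0 < W)
  obtain ⟨b, hb⟩ : ∃ b, D.bd (q.1 * W, q.2 * W) = b := ⟨_, rfl⟩
  rw [hb]
  have hf0 := fb_nonneg (d := b) hW
  by_cases h8 : 8 * W + 8 ≤ b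
  · obtain ⟨k, hk⟩ := Int.eq_ofNat_of_zero_le (show 0 ≤ 4 * W by omega)
    obtain ⟨R, hR⟩ := Int.eq_ofNat_of_zero_le (show 0 ≤ b by omega)
    have hbd : (b ≤ q.1 * W - D.l ∧ b ≤ D.r - q.1 * W) ∧ (b ≤ q.2 * W ∧ b ≤ D.h - q.2 * W) := by
      unfold Dm.bd at hb
      simp only at hb
      omega
    set Bx := RE (q.1 * W - k) (q.1 * W + k) (q.2 * W - k) (q.2 * W + k) with hBx
    set X := D.edges \ Bx with hX
    have hm : P D.edges (Tch D W q) ≤ P D.edges (two_An X (q.1 * W, q.2 * W) (k + 1) R) := by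
      refine Pr_mono two_ok fun F hF hv => ?_
      obtain ⟨t, ht, hs⟩ := hv
      unfold sd blk at hs
      have hs1 := (le_max_left _ _).trans hs
      have hs2 := (le_max_right _ _).trans hs
      rw [abs_le] at hs1 hs2
      simp only at hs1 hs2
      set v := (D.walk F t).1 with hv
      have d1 := Int.mul_ediv_self_le (x := v.1) (k := W) (by omega)
      have d2 := Int.lt_mul_ediv_self_add (x := v.1) (k := W) (by omega)
      have d3 := Int.mul_ediv_self_le (x := v.2) (k := W) (by omega)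
      have d4 := Int.lt_mul_ediv_self_add (x := v.2) (k := W) (by omega)
      have e1 : q.1 * W - 3 * W ≤ W * (v.1 / W) := by nlinarith
      have e2 : W * (v.1 / W) ≤ q.1 * W + 3 * W := by nlinarith
      have e3 : q.2 * W - 3 * W ≤ W * (v.2 / W) := by nlinarith
      have e4 : W * (v.2 / W) ≤ q.2 * W + 3 * W := by nlinarith
      have h3 := vis_ann hD hF ⟨t, ht, rfl⟩ (c1 := q.1 * W) (c2 := q.2 * W) (k := k) (R := R)
        (by unfold inR; rw [← hv]; omega) (by omega) (by omega) (by omega) (by omega) (by omega)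
      unfold two_An
      have e1 : F ∩ X = F \ Bx := by
        rw [hX]
        ext e
        simp only [Finset.mem_inter, Finset.mem_sdiff]
        constructor
        · rintro ⟨a1, a2, a3⟩
          exact ⟨a1, a3⟩
        · rintro ⟨a1, a3⟩
          exact ⟨a1, hF a1, a3⟩
      rw [e1]
      exact h3
    have g3 := two_pr hA (X := X) (S := D.edges) Finset.sdiff_subset (q.1 * W, q.2 * W)
      (r := k + 1) (R := R) (by omega) (by omega)
    have hRr : (R : ℝ) = b := by
      rw [hR]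
      rfl
    have hkr : (k : ℝ) = 4 * W := by
      have : ((k : ℤ) : ℝ) = ((4 * W : ℤ) : ℝ) := by rw [hk]
      push_cast at this
      exact this
    have hb8 : (8 : ℝ) * W + 8 ≤ b := by exact_mod_cast h8
    have hmax : (max b 0 : ℤ) = b := max_eq_left (by omega)
    have hW1 : (1 : ℝ) ≤ W := by exact_mod_cast hW
    have g4 : (((k + 1 : ℕ) : ℝ) / R) ^ (1/4 : ℝ) ≤ 6 * fb W b := by
      unfold fb
      rw [hmax]
      apply two_pow
      · positivity
      · have : (0 : ℝ) < b := by linarith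
        positivity
      · norm_num
      · push_cast
        rw [hRr, hkr, ← mul_div_assoc, div_le_div_iff₀ (by linarith) (by linarith)]
        nlinarith
    calc P D.edges (Tch D W q) ≤ C * (((k + 1 : ℕ) : ℝ) / R) ^ (1/4 : ℝ) := hm.trans g3
      _ ≤ C * (6 * fb W b) := mul_le_mul_of_nonneg_left g4 hC.le
      _ ≤ (6 * C + 17) * fb W b := by linarith
  · have h1 : P D.edges (Tch D W q) ≤ 1 := Pr_le_one two_ok _ _
    have hm0 : (0 : ℝ) ≤ (max b 0 : ℤ) := by exact_mod_cast le_max_right b 0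
    have hm1 : ((max b 0 : ℤ) : ℝ) ≤ 16 * W := by
      have : max b 0 ≤ 16 * W := by
        apply max_le <;> omega
      exact_mod_cast this
    have h2 : 1 ≤ 17 * fb W b := by
      unfold fb
      have := two_pow (x := 1) (y := (W : ℝ) / ((max b 0 : ℤ) + W)) (M := 17) (by norm_num)
        (by positivity) (by norm_num) (by
          rw [← mul_div_assoc, le_div_iff₀ (by positivity)]
          linarith)
      rwa [Real.one_rpow] at this
    have h3 : 0 ≤ 6 * C * fb W b := by positivity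
    linarith

/-- FM -/
theorem fm {C : ℝ} (hC : 0 < C) (hA : AnnUp C) : S_FM := by
  classical
  intro κ _
  refine ⟨(6 * C + 17) * 40, by positivity, ?_⟩
  intro D n ρ W hS hW hρ hn
  have hD := hS.ok
  have hl := hD.l_neg
  have hr := hD.r_pos
  have hh := hD.h_pos
  have hW0 : (0 : ℝ) < W := by exact_mod_cast (by omega : 0 < W)
  have hn0 : (0 : ℝ) < n := by linarith
  have hnW : 1 ≤ n / W := by
    rw [le_div_iff₀ hW0]
    linarith
  have hρ0 : (0 : ℝ) < ρ := by linarith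
  set T := 4 * (ρ / W) ^ (3/4 : ℝ) with hT
  have hT0 : 0 ≤ T := by positivity
  -- the four functions
  set G : ℤ → ℝ := fun d => if (d : ℝ) ≤ ρ then fb W d else 0 with hG
  have hG0 : ∀ d, 0 ≤ G d := by
    intro d
    simp only [hG]
    split_ifs
    · exact fb_nonneg hW
    · exact le_rfl
  have hstep : ∑ q ∈ (Bks D W).filter (fun q => ((D.bd (q.1 * W, q.2 * W) : ℤ) : ℝ) ≤ ρ),
      P D.edges (Tch D W q) ≤ (6 * C + 17) * ∑ q ∈ Bks D W, (G (q.1 * W - D.l) +
        G (D.r - q.1 * W) + (G (q.2 * W) + G (D.h - q.2 * W))) := by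
    rw [Finset.mul_sum, Finset.sum_filter]
    apply Finset.sum_le_sum
    intro q _
    have hsum0 : 0 ≤ G (q.1 * W - D.l) + G (D.r - q.1 * W) + (G (q.2 * W) + G (D.h - q.2 * W)) := by
      have := hG0 (q.1 * W - D.l)
      have := hG0 (D.r - q.1 * W)
      have := hG0 (q.2 * W)
      have := hG0 (D.h - q.2 * W)
      linarith
    split_ifs with hq
    · refine (tch_pr hC hA hD hW q).trans ?_
      apply mul_le_mul_of_nonneg_left _ (by positivity)
      have key : D.bd (q.1 * W, q.2 * W) = q.1 * W - D.l ∨ D.bd (q.1 * W, q.2 * W) = D.r - q.1 * W ∨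
          D.bd (q.1 * W, q.2 * W) = q.2 * W ∨ D.bd (q.1 * W, q.2 * W) = D.h - q.2 * W := by
        unfold Dm.bd
        simp only
        omega
      have hGe : ∀ d : ℤ, (d : ℝ) ≤ ρ → G d = fb W d := by
        intro d hd
        simp only [hG]
        rw [if_pos hd]
      have a1 := hG0 (q.1 * W - D.l)
      have a2 := hG0 (D.r - q.1 * W)
      have a3 := hG0 (q.2 * W)
      have a4 := hG0 (D.h - q.2 * W)
      rcases key with h | h | h | h
      · rw [h] at hq ⊢
        rw [← hGe _ hq]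
        linarith
      · rw [h] at hq ⊢
        rw [← hGe _ hq]
        linarith
      · rw [h] at hq ⊢
        rw [← hGe _ hq]
        linarith
      · rw [h] at hq ⊢
        rw [← hGe _ hq]
        linarith
    · positivity
  refine hstep.trans ?_
  -- cardinalities
  set I1 := Finset.Icc (D.l / W) (D.r / W) with hI1
  set I2 := Finset.Icc 0 (D.h / W) with hI2
  have q1 := Int.mul_ediv_self_le (x := D.l) (k := W) (by omega)
  have q2 := Int.lt_mul_ediv_self_add (x := D.l) (k := W) (by omega)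
  have q3 := Int.mul_ediv_self_le (x := D.r) (k := W) (by omega)
  have q4 := Int.lt_mul_ediv_self_add (x := D.r) (k := W) (by omega)
  have q5 := Int.mul_ediv_self_le (x := D.h) (k := W) (by omega)
  have q6 := Int.lt_mul_ediv_self_add (x := D.h) (k := W) (by omega)
  have hc2 : (I2.card : ℝ) ≤ 2 * (n / W) := by
    rw [hI2, Int.card_Icc]
    have h1 : (0 : ℤ) ≤ D.h / W := Int.ediv_nonneg hh.le (by omega)
    have h2 : (((D.h / W + 1 - 0).toNat : ℕ) : ℝ) = ((D.h / W : ℤ) : ℝ) + 1 := by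
      have : (((D.h / W + 1 - 0).toNat : ℕ) : ℤ) = D.h / W + 1 := by omega
      exact_mod_cast this
    rw [h2]
    have h3 : (W : ℝ) * ((D.h / W : ℤ) : ℝ) ≤ D.h := by exact_mod_cast q5
    have h4 : ((D.h / W : ℤ) : ℝ) ≤ n / W := by
      rw [le_div_iff₀ hW0]
      linarith [hS.h_le]
    linarith
  have hc1 : (I1.card : ℝ) ≤ 3 * (n / W) := by
    rw [hI1, Int.card_Icc]
    have h1 : D.l / W ≤ D.r / W := Int.ediv_le_ediv (by omega) (by omega)
    have h2 : (((D.r / W + 1 - D.l / W).toNat : ℕ) : ℝ) =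
        ((D.r / W : ℤ) : ℝ) + 1 - ((D.l / W : ℤ) : ℝ) := by
      have : (((D.r / W + 1 - D.l / W).toNat : ℕ) : ℤ) = D.r / W + 1 - D.l / W := by omega
      exact_mod_cast this
    rw [h2]
    have h3 : (W : ℝ) * ((D.r / W : ℤ) : ℝ) ≤ D.r := by exact_mod_cast q3
    have h4 : (D.l : ℝ) < (W : ℝ) * ((D.l / W : ℤ) : ℝ) + W := by exact_mod_cast q2
    have h5 : ((D.r / W : ℤ) : ℝ) - ((D.l / W : ℤ) : ℝ) - 1 ≤ n / W := by
      rw [le_div_iff₀ hW0]
      have := hS.w_le
      push_cast at this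
      nlinarith
    linarith
  -- the four sums
  have s1 : ∑ x ∈ I1, G (x * W - D.l) ≤ T := by
    apply one_dim I1 (fun x => x * W - D.l) (fun x => (x - D.l / W).toNat) hW hρ
    · intro x hx y hy hxy
      rw [hI1, Finset.coe_Icc, Set.mem_Icc] at hx hy
      simp only at hxy
      omega
    · intro x hx
      rw [hI1, Finset.mem_Icc] at hx
      have e : (((x - D.l / W).toNat : ℕ) : ℤ) = x - D.l / W := by omega
      rw [e]
      nlinarith
  have s2 : ∑ x ∈ I1, G (D.r - x * W) ≤ T := by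
    apply one_dim I1 (fun x => D.r - x * W) (fun x => (D.r / W - x).toNat) hW hρ
    · intro x hx y hy hxy
      rw [hI1, Finset.coe_Icc, Set.mem_Icc] at hx hy
      simp only at hxy
      omega
    · intro x hx
      rw [hI1, Finset.mem_Icc] at hx
      have e : (((D.r / W - x).toNat : ℕ) : ℤ) = D.r / W - x := by omega
      rw [e]
      nlinarith
  have s3 : ∑ y ∈ I2, G (y * W) ≤ T := by
    apply one_dim I2 (fun y => y * W) (fun y => y.toNat) hW hρ
    · intro x hx y hy hxy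
      rw [hI2, Finset.coe_Icc, Set.mem_Icc] at hx hy
      simp only at hxy
      omega
    · intro x hx
      rw [hI2, Finset.mem_Icc] at hx
      have e : ((x.toNat : ℕ) : ℤ) = x := by omega
      rw [e]
      nlinarith
  have s4 : ∑ y ∈ I2, G (D.h - y * W) ≤ T := by
    apply one_dim I2 (fun y => D.h - y * W) (fun y => (D.h / W - y).toNat) hW hρ
    · intro x hx y hy hxy
      rw [hI2, Finset.coe_Icc, Set.mem_Icc] at hx hy
      simp only at hxy
      omega
    · intro x hx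
      rw [hI2, Finset.mem_Icc] at hx
      have e : (((D.h / W - x).toNat : ℕ) : ℤ) = D.h / W - x := by omega
      rw [e]
      nlinarith
  have hB : ∑ q ∈ Bks D W, (G (q.1 * W - D.l) + G (D.r - q.1 * W) +
      (G (q.2 * W) + G (D.h - q.2 * W))) =
      I2.card * ∑ x ∈ I1, (G (x * W - D.l) + G (D.r - x * W)) +
      I1.card * ∑ y ∈ I2, (G (y * W) + G (D.h - y * W)) := by
    unfold Bks
    rw [← hI1, ← hI2, Finset.sum_add_distrib, Finset.sum_product, Finset.sum_product_right]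
    congr 1
    · simp only [Finset.sum_const, nsmul_eq_mul]
      rw [Finset.mul_sum]
    · simp only [Finset.sum_const, nsmul_eq_mul]
      rw [Finset.mul_sum]
  rw [hB, Finset.sum_add_distrib, Finset.sum_add_distrib]
  have hfin : (n / W) ^ (7/4 : ℝ) * (ρ / n) ^ (3/4 : ℝ) = n / W * (ρ / W) ^ (3/4 : ℝ) := by
    rw [show (7/4 : ℝ) = 1 + 3/4 by norm_num, Real.rpow_add (by positivity), Real.rpow_one,
      mul_assoc, ← Real.mul_rpow (by positivity) (by positivity)]
    congr 2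
    field_simp
  rw [mul_assoc ((6 * C + 17) * 40), hfin, mul_assoc (6 * C + 17)]
  apply mul_le_mul_of_nonneg_left _ (by positivity)
  have hnW0 : 0 ≤ n / W := by positivity
  calc (I2.card : ℝ) * (∑ x ∈ I1, G (x * W - D.l) + ∑ x ∈ I1, G (D.r - x * W)) +
        I1.card * (∑ y ∈ I2, G (y * W) + ∑ y ∈ I2, G (D.h - y * W))
      ≤ 2 * (n / W) * (T + T) + 3 * (n / W) * (T + T) := by
        have t1 : 0 ≤ ∑ x ∈ I1, G (x * W - D.l) + ∑ x ∈ I1, G (D.r - x * W) :=
          add_nonneg (Finset.sum_nonneg fun _ _ => hG0 _) (Finset.sum_nonneg fun _ _ => hG0 _)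
        have t2 : 0 ≤ ∑ y ∈ I2, G (y * W) + ∑ y ∈ I2, G (D.h - y * W) :=
          add_nonneg (Finset.sum_nonneg fun _ _ => hG0 _) (Finset.sum_nonneg fun _ _ => hG0 _)
        apply add_le_add
        · exact mul_le_mul hc2 (by linarith) t1 (by positivity)
        · exact mul_le_mul hc1 (by linarith) t2 (by positivity)
    _ = 40 * (n / W * (ρ / W) ^ (3/4 : ℝ)) := by
        rw [hT]
        ring

end Pool.Agent.Y317.ME
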